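import Pool.Agent.X7.CrossSperner.Main

open Finset

namespace Pool.Agent.Results.MP_841146_co.OddMaximum

/-- Two families of subsets of `{0,...,n-1}` are cross-Sperner if no member of one family is
contained in a member of the other. -/
def CrossSperner {n : ℕ} (A B : Finset (Finset (Fin n))) : Prop :=
  ∀ S ∈ A, ∀ T ∈ B, ¬ S ⊆ T ∧ ¬ T ⊆ S

/-- The family of all intersections `S ∩ T` with `S ∈ A`, `T ∈ B`. -/
def intersections {n : ℕ} (A B : Finset (Finset (Fin n))) : Finset (Finset (Fin n)) :=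
  Finset.image₂ (fun S T => S ∩ T) A B

/-- For every odd `n = 2 d + 1`, the maximum number of distinct intersections of a pair of
cross-Sperner families of subsets of an `n`-set is exactly `2^n - 2^(d+1) - 2^d + 1`. -/
theorem result (d : ℕ) :
    IsGreatest {m : ℕ | ∃ A B : Finset (Finset (Fin (2 * d + 1))),
      CrossSperner A B ∧ m = (intersections A B).card}
      (2 ^ (2 * d + 1) + 1 - (2 ^ (d + 1) + 2 ^ d)) := by
  have hpow : (2:ℕ) ^ (2 * d + 1) = 2 * (2 ^ d) ^ 2 := by rw [pow_succ, pow_mul']; ring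
  have hpow2 : (2:ℕ) ^ (d + 1) = 2 * 2 ^ d := by rw [pow_succ]; ring
  have hP : 1 ≤ 2 ^ d := Nat.one_le_two_pow
  have hge : 2 ^ (d + 1) + 2 ^ d ≤ 2 ^ (2 * d + 1) + 1 := by
    rw [hpow, hpow2]
    zify
    have : (1:ℤ) ≤ 2 ^ d := by exact_mod_cast hP
    nlinarith
  constructor
  · let X : Finset (Fin (2 * d + 1)) := univ.filter (fun i => i.val < d)
    let Y : Finset (Fin (2 * d + 1)) := univ.filter (fun i => ¬ i.val < d)
    have hdisj : Disjoint X Y := disjoint_filter_filter_not _ _ _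
    have hX : X.card = d := by
      have h1 : X = Finset.Iio (⟨d, by omega⟩ : Fin (2 * d + 1)) := by
        ext i
        simp [X, Fin.lt_def]
      rw [h1, Fin.card_Iio]
    have hXY : X.card + Y.card = 2 * d + 1 := by
      have h1 := card_filter_add_card_filter_not (s := (univ : Finset (Fin (2 * d + 1))))
        (fun i => i.val < d)
      rw [card_univ, Fintype.card_fin] at h1
      exact h1
    have hY : Y.card = d + 1 := by omega
    obtain ⟨A, B, hAB, hcard⟩ := Pool.Agent.X7.CrossSperner.lower X Y hdisj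
    refine ⟨A, B, hAB, ?_⟩
    rw [hX, hY] at hcard
    have h2 : (intersections A B).card = (2 ^ d - 1) * (2 ^ (d + 1) - 1) := hcard
    rw [h2, hpow, hpow2]
    zify [hP, (by omega : 1 ≤ 2 * 2 ^ d)]
    have h3 : ((2 * (2 ^ d) ^ 2 + 1 - (2 * 2 ^ d + 2 ^ d) : ℕ) : ℤ) =
        2 * (2 ^ d) ^ 2 + 1 - (2 * 2 ^ d + 2 ^ d) := by
      rw [Nat.cast_sub]
      · push_cast; ring
      · rw [← hpow, ← hpow2]; exact hge
    rw [h3]
    ring
  · rintro m ⟨A, B, hAB, rfl⟩
    have h1 := Pool.Agent.X7.CrossSperner.upper d rfl A B hAB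
    have h2 : ((intersections A B).card : ℤ) ≤ 2 * (2 ^ d) ^ 2 - 3 * 2 ^ d + 1 := h1
    have h3 : ((intersections A B).card : ℤ) ≤ ((2 ^ (2 * d + 1) + 1 - (2 ^ (d + 1) + 2 ^ d) : ℕ) : ℤ) := by
      rw [Nat.cast_sub hge]
      push_cast
      have e1 : (2:ℤ) ^ (2 * d + 1) = 2 * (2 ^ d) ^ 2 := by exact_mod_cast hpow
      have e2 : (2:ℤ) ^ (d + 1) = 2 * 2 ^ d := by exact_mod_cast hpow2
      rw [e1, e2]
      linarith
    exact_mod_cast h3

end Pool.Agent.Results.MP_841146_co.OddMaximum
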